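import Mathlib
import Pool.Agent.Helper976.Rec.Main

set_option autoImplicit false

namespace Pool.Agent.Results.MP_d45172_nt.Description

open Pool.Agent.Helper976.Rec

lemma c1 (w x y z : ℤ) : ({w, x, y, z} : Multiset ℤ) = {x, w, y, z} := Multiset.cons_swap w x {y, z}
lemma c2 (w x y z : ℤ) : ({w, x, y, z} : Multiset ℤ) = {w, y, x, z} :=
  congrArg (Multiset.cons w) (Multiset.cons_swap x y {z})
lemma c3 (w x y z : ℤ) : ({w, x, y, z} : Multiset ℤ) = {w, x, z, y} :=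
  congrArg (Multiset.cons w) (congrArg (Multiset.cons x) (Multiset.cons_swap y z 0))

/-- the left side of the equation as a function of the multiset of the entries -/
def F (M : Multiset ℤ) : ℚ :=
  (M.map (fun a : ℤ => (1 / (a : ℚ)))).sum + (M.map (fun a : ℤ => (1 / (a : ℚ)))).prod

lemma F_eq (w x y z : ℤ) :
    F {w, x, y, z} = (1 / w + 1 / x + 1 / y + 1 / z + 1 / (w * x * y * z) : ℚ) := by
  simp only [F, Multiset.insert_eq_cons, Multiset.map_cons, Multiset.map_singleton,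
    Multiset.sum_cons, Multiset.sum_singleton, Multiset.prod_cons, Multiset.prod_singleton,
    one_div, mul_inv]
  ring

lemma rat_of_E {w x y z : ℤ} (hw : w ≠ 0) (hx : x ≠ 0) (hy : y ≠ 0) (hz : z ≠ 0)
    (h : E w x y z) : (1 / w + 1 / x + 1 / y + 1 / z + 1 / (w * x * y * z) : ℚ) = 0 := by
  have hw' : (w : ℚ) ≠ 0 := by exact_mod_cast hw
  have hx' : (x : ℚ) ≠ 0 := by exact_mod_cast hx
  have hy' : (y : ℚ) ≠ 0 := by exact_mod_cast hy
  have hz' : (z : ℚ) ≠ 0 := by exact_mod_cast hz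
  unfold E at h
  have h2 : (x * y * z + w * y * z + w * x * z + w * x * y + 1 : ℚ) = 0 := by exact_mod_cast h
  have h3 : (1 / w + 1 / x + 1 / y + 1 / z + 1 / (w * x * y * z) : ℚ) =
      (x * y * z + w * y * z + w * x * z + w * x * y + 1) / (w * x * y * z) := by
    field_simp
  rw [h3, h2, zero_div]

/-- the list of the theorem, for given `m, n, r, s` -/
def L (m n r s : ℤ) : Prop := |m| ≤ |n| ∧ |m| ≤ |r| ∧ |m| ≤ |s| ∧ n + m ≠ 0 ∧ |n + m| ≤ 2 * |m| ∧
  ∃ d e : ℤ, d * e = m ^ 2 * n ^ 2 - n - m ∧ (n + m) * (r + m) = d + m ^ 2 ∧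
    (n + m) * (s + m) = e + m ^ 2

lemma aux {m n r s : ℤ} (hm : m ≠ 0) (h : E m n r s) (h1 : |m| ≤ |n|) (h2 : |m| ≤ |r|)
    (h3 : |m| ≤ |s|) (hs : |n + m| ≤ 2 * |m|) :
    (∃ t : ℤ, ({m, n, r, s} : Multiset ℤ) = {1, -1, t, 1 - t}) ∨ L m n r s := by
  by_cases h0 : n + m = 0
  · left
    have hn : n = -m := by linarith
    subst hn
    unfold E at h
    have k1 : m * (m * (r + s)) = 1 := by linear_combination -h
    have k2 : m ∣ 1 := ⟨_, k1.symm⟩
    rcases Int.isUnit_iff.mp (isUnit_of_dvd_one k2) with k3 | k3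
    · subst k3
      exact ⟨r, by rw [show s = 1 - r by linarith]⟩
    · subst k3
      refine ⟨r, ?_⟩
      rw [show s = 1 - r by linarith, neg_neg, c1]
  · right
    refine ⟨h1, h2, h3, h0, hs, (n + m) * (r + m) - m ^ 2, (n + m) * (s + m) - m ^ 2, ?_, by ring,
      by ring⟩
    have := factor h
    linarith

/-- the list of the theorem up to order -/
def Q (M : Multiset ℤ) : Prop := (∃ t : ℤ, M = {1, -1, t, 1 - t}) ∨
  ∃ m n r s : ℤ, M = {m, n, r, s} ∧ L m n r s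

lemma aux2 {m n r s : ℤ} (hm : m ≠ 0) (h : E m n r s) (h1 : |m| ≤ |n|) (h2 : |m| ≤ |r|)
    (h3 : |m| ≤ |s|) : Q {m, n, r, s} := by
  have step : ∀ {a b c : ℤ}, E m a b c → |m| ≤ |a| → |m| ≤ |b| → |m| ≤ |c| →
      |a + m| ≤ 2 * |m| → Q {m, a, b, c} := by
    intro a b c hE ha hb hc hs
    rcases aux hm hE ha hb hc hs with k | k
    · exact Or.inl k
    · exact Or.inr ⟨m, a, b, c, rfl, k⟩
  rcases small_entry (Int.one_le_abs hm) h with hs | hs | hs
  · exact step h h1 h2 h3 hs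
  · rw [c2]
    exact step (swap23 h) h2 h1 h3 hs
  · rw [c3, c2]
    exact step (swap23 (swap34 h)) h3 h1 h2 hs

lemma forward {w x y z : ℤ} (hw : w ≠ 0) (hx : x ≠ 0) (hy : y ≠ 0) (hz : z ≠ 0)
    (h : E w x y z) : Q {w, x, y, z} := by
  by_cases k1 : |w| ≤ |x| ∧ |w| ≤ |y| ∧ |w| ≤ |z|
  · exact aux2 hw h k1.1 k1.2.1 k1.2.2
  by_cases k2 : |x| ≤ |w| ∧ |x| ≤ |y| ∧ |x| ≤ |z|
  · rw [c1]
    exact aux2 hx (swap12 h) k2.1 k2.2.1 k2.2.2
  by_cases k3 : |y| ≤ |w| ∧ |y| ≤ |x| ∧ |y| ≤ |z|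
  · rw [c2, c1]
    exact aux2 hy (swap12 (swap23 h)) k3.1 k3.2.1 k3.2.2
  · rw [c3, c2, c1]
    refine aux2 hz (swap12 (swap23 (swap34 h))) ?_ ?_ ?_ <;> omega

/-- **Description of all solutions.**  Nonzero integers `w, x, y, z` satisfy
`1/w + 1/x + 1/y + 1/z + 1/(wxyz) = 0` if and only if, up to the order of the entries, they are
`1, -1, t, 1 - t`, or they are `m, n, r, s` where `m` has the smallest absolute value,
`0 < |n + m| ≤ 2 |m|`, and `(n + m) (r + m) = d + m ^ 2`, `(n + m) (s + m) = e + m ^ 2` for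
complementary divisors `d, e` of the integer `m ^ 2 n ^ 2 - n - m`. -/
theorem result (w x y z : ℤ) (hw : w ≠ 0) (hx : x ≠ 0) (hy : y ≠ 0) (hz : z ≠ 0) :
    (1 / w + 1 / x + 1 / y + 1 / z + 1 / (w * x * y * z) : ℚ) = 0 ↔
      (∃ t : ℤ, ({w, x, y, z} : Multiset ℤ) = {1, -1, t, 1 - t}) ∨
      ∃ m n r s : ℤ, ({w, x, y, z} : Multiset ℤ) = {m, n, r, s} ∧
        |m| ≤ |n| ∧ |m| ≤ |r| ∧ |m| ≤ |s| ∧ n + m ≠ 0 ∧ |n + m| ≤ 2 * |m| ∧
        ∃ d e : ℤ, d * e = m ^ 2 * n ^ 2 - n - m ∧ (n + m) * (r + m) = d + m ^ 2 ∧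
          (n + m) * (s + m) = e + m ^ 2 := by
  constructor
  · intro h
    exact forward hw hx hy hz (E_of_rat hw hx hy hz h)
  · have hmem : ∀ a ∈ ({w, x, y, z} : Multiset ℤ), a ≠ 0 := by
      intro a ha
      simp only [Multiset.insert_eq_cons, Multiset.mem_cons, Multiset.mem_singleton] at ha
      rcases ha with rfl | rfl | rfl | rfl <;> assumption
    rintro (⟨t, ht⟩ | ⟨m, n, r, s, hM, -, -, -, hne, -, d, e, hde, hd, he⟩)
    · rw [ht] at hmem
      rw [← F_eq, ht, F_eq]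
      have t0 : t ≠ 0 := hmem t (by simp)
      have t1 : 1 - t ≠ 0 := hmem (1 - t) (by simp)
      refine rat_of_E one_ne_zero (by norm_num) t0 t1 ?_
      unfold E
      ring
    · rw [hM] at hmem
      rw [← F_eq, hM, F_eq]
      refine rat_of_E (hmem m (by simp)) (hmem n (by simp)) (hmem r (by simp)) (hmem s (by simp)) ?_
      have k : (n + m) * (n * r * s + m * r * s + m * n * s + m * n * r + 1) = 0 := by
        have k1 : ((n + m) * (r + m) - m ^ 2) * ((n + m) * (s + m) - m ^ 2) =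
            m ^ 2 * n ^ 2 - n - m := by
          rw [hd, he, ← hde]
          ring
        linear_combination k1
      rcases mul_eq_zero.mp k with k2 | k2
      · exact absurd k2 hne
      · exact k2

end Pool.Agent.Results.MP_d45172_nt.Description
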