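import Mathlib
import Pool.Agent.Helper976.Rec.Main

set_option autoImplicit false

namespace Pool.Agent.Results.MP_d45172_nt.Structure

open Pool.Agent.Helper976.Rec

lemma c1 (w x y z : ℤ) : ({w, x, y, z} : Multiset ℤ) = {x, w, y, z} := Multiset.cons_swap w x {y, z}
lemma c2 (w x y z : ℤ) : ({w, x, y, z} : Multiset ℤ) = {w, y, x, z} :=
  congrArg (Multiset.cons w) (Multiset.cons_swap x y {z})
lemma c3 (w x y z : ℤ) : ({w, x, y, z} : Multiset ℤ) = {w, x, z, y} :=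
  congrArg (Multiset.cons w) (congrArg (Multiset.cons x) (Multiset.cons_swap y z 0))

lemma q_one_aux {x y z : ℤ} (hx : x ≠ 0) (hy : y ≠ 0) (hz : z ≠ 0) (h : E 1 x y z)
    (hs : |x + 1| ≤ 2 * |(1 : ℤ)|) :
    (∃ t : ℤ, ({1, x, y, z} : Multiset ℤ) = {1, -1, t, 1 - t}) ∨
      ({1, x, y, z} : Multiset ℤ) = {-1, 2, 3, 5} ∨ ({1, x, y, z} : Multiset ℤ) = {1, -2, -3, -7} := by
  rcases one_aux hx hy hz h hs with ⟨rfl, h1⟩ | ⟨rfl, h1⟩ | ⟨rfl, h1⟩ | ⟨rfl, rfl, rfl⟩ |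
    ⟨rfl, rfl, rfl⟩ | ⟨rfl, rfl, rfl⟩ | ⟨rfl, rfl, rfl⟩
  · exact Or.inl ⟨y, by rw [show z = 1 - y by linarith]⟩
  · exact Or.inl ⟨x, by rw [show z = 1 - x by linarith, c2]⟩
  · exact Or.inl ⟨x, by rw [show y = 1 - x by linarith, c3, c2]⟩
  · exact Or.inr (Or.inr rfl)
  · exact Or.inr (Or.inr (by decide))
  · exact Or.inr (Or.inr (by decide))
  · exact Or.inr (Or.inr (by decide))

lemma q_one {x y z : ℤ} (hx : x ≠ 0) (hy : y ≠ 0) (hz : z ≠ 0) (h : E 1 x y z) :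
    (∃ t : ℤ, ({1, x, y, z} : Multiset ℤ) = {1, -1, t, 1 - t}) ∨
      ({1, x, y, z} : Multiset ℤ) = {-1, 2, 3, 5} ∨ ({1, x, y, z} : Multiset ℤ) = {1, -2, -3, -7} := by
  rcases small_entry (by norm_num) h with hs | hs | hs
  · exact q_one_aux hx hy hz h hs
  · rw [c2]
    exact q_one_aux hy hx hz (swap23 h) hs
  · rw [c3, c2]
    exact q_one_aux hz hx hy (swap23 (swap34 h)) hs

lemma q_neg_aux {x y z : ℤ} (hx : x ≠ 0) (hy : y ≠ 0) (hz : z ≠ 0) (h : E (-1) x y z)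
    (hs : |x + (-1)| ≤ 2 * |(-1 : ℤ)|) :
    (∃ t : ℤ, ({-1, x, y, z} : Multiset ℤ) = {1, -1, t, 1 - t}) ∨
      ({-1, x, y, z} : Multiset ℤ) = {-1, 2, 3, 5} ∨ ({-1, x, y, z} : Multiset ℤ) = {1, -2, -3, -7} := by
  rcases neg_one_aux hx hy hz h hs with ⟨rfl, h1⟩ | ⟨rfl, h1⟩ | ⟨rfl, h1⟩ | ⟨rfl, rfl, rfl⟩ |
    ⟨rfl, rfl, rfl⟩ | ⟨rfl, rfl, rfl⟩ | ⟨rfl, rfl, rfl⟩
  · exact Or.inl ⟨y, by rw [show z = 1 - y by linarith, c1]⟩
  · exact Or.inl ⟨x, by rw [show z = 1 - x by linarith, c2, c1]⟩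
  · exact Or.inl ⟨x, by rw [show y = 1 - x by linarith, c3, c2, c1]⟩
  · exact Or.inr (Or.inl rfl)
  · exact Or.inr (Or.inl (by decide))
  · exact Or.inr (Or.inl (by decide))
  · exact Or.inr (Or.inl (by decide))

lemma q_neg {x y z : ℤ} (hx : x ≠ 0) (hy : y ≠ 0) (hz : z ≠ 0) (h : E (-1) x y z) :
    (∃ t : ℤ, ({-1, x, y, z} : Multiset ℤ) = {1, -1, t, 1 - t}) ∨
      ({-1, x, y, z} : Multiset ℤ) = {-1, 2, 3, 5} ∨ ({-1, x, y, z} : Multiset ℤ) = {1, -2, -3, -7} := by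
  rcases small_entry (by norm_num) h with hs | hs | hs
  · exact q_neg_aux hx hy hz h hs
  · rw [c2]
    exact q_neg_aux hy hx hz (swap23 h) hs
  · rw [c3, c2]
    exact q_neg_aux hz hx hy (swap23 (swap34 h)) hs

lemma q_first {w x y z : ℤ} (hw : |w| = 1) (hx : x ≠ 0) (hy : y ≠ 0) (hz : z ≠ 0) (h : E w x y z) :
    (∃ t : ℤ, ({w, x, y, z} : Multiset ℤ) = {1, -1, t, 1 - t}) ∨
      ({w, x, y, z} : Multiset ℤ) = {-1, 2, 3, 5} ∨ ({w, x, y, z} : Multiset ℤ) = {1, -2, -3, -7} := by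
  rcases (abs_eq (by norm_num)).mp hw with rfl | rfl
  · exact q_one hx hy hz h
  · exact q_neg hx hy hz h

/-- Every solution in nonzero integers of `1/w + 1/x + 1/y + 1/z + 1/(wxyz) = 0` is, up to the order
of its entries, `(1, -1, t, 1 - t)` or `(-1, 2, 3, 5)` or `(1, -2, -3, -7)`, or all its entries `u`
satisfy `|u| ≥ 2` and every entry `v` is bounded by `|v| ≤ 10 u ^ 4` for every entry `u`. -/
theorem result (w x y z : ℤ) (hw : w ≠ 0) (hx : x ≠ 0) (hy : y ≠ 0) (hz : z ≠ 0)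
    (h : (1 / w + 1 / x + 1 / y + 1 / z + 1 / (w * x * y * z) : ℚ) = 0) :
    (∃ t : ℤ, ({w, x, y, z} : Multiset ℤ) = {1, -1, t, 1 - t}) ∨
      ({w, x, y, z} : Multiset ℤ) = {-1, 2, 3, 5} ∨
      ({w, x, y, z} : Multiset ℤ) = {1, -2, -3, -7} ∨
      (∀ u ∈ ({w, x, y, z} : Multiset ℤ), 2 ≤ |u| ∧
        ∀ v ∈ ({w, x, y, z} : Multiset ℤ), |v| ≤ 10 * u ^ 4) := by
  have hE := E_of_rat hw hx hy hz h
  have push : ∀ {M : Multiset ℤ}, ((∃ t : ℤ, M = {1, -1, t, 1 - t}) ∨ M = {-1, 2, 3, 5} ∨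
      M = {1, -2, -3, -7}) → (∃ t : ℤ, M = {1, -1, t, 1 - t}) ∨ M = {-1, 2, 3, 5} ∨
      M = {1, -2, -3, -7} ∨ (∀ u ∈ M, 2 ≤ |u| ∧ ∀ v ∈ M, |v| ≤ 10 * u ^ 4) := by
    intro M hM
    rcases hM with h | h | h
    · exact Or.inl h
    · exact Or.inr (Or.inl h)
    · exact Or.inr (Or.inr (Or.inl h))
  have split : ∀ {a : ℤ}, a ≠ 0 → |a| = 1 ∨ 2 ≤ |a| := by
    intro a ha
    have := Int.one_le_abs ha
    omega
  rcases split hw with h1 | h1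
  · exact push (q_first h1 hx hy hz hE)
  rcases split hx with h2 | h2
  · rw [c1]
    exact push (q_first h2 hw hy hz (swap12 hE))
  rcases split hy with h3 | h3
  · rw [c2, c1]
    exact push (q_first h3 hw hx hz (swap12 (swap23 hE)))
  rcases split hz with h4 | h4
  · rw [c3, c2, c1]
    exact push (q_first h4 hw hx hy (swap12 (swap23 (swap34 hE))))
  refine Or.inr (Or.inr (Or.inr ?_))
  have self : ∀ {a : ℤ}, 2 ≤ |a| → |a| ≤ 10 * a ^ 4 := by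
    intro a ha
    have e : a ^ 4 = |a| ^ 4 := by
      rw [← abs_pow]
      exact (abs_of_nonneg (by positivity)).symm
    rw [e]
    generalize |a| = A at *
    have e1 : A ^ 4 = (A * A) * (A * A) := by ring
    rw [e1]
    nlinarith [mul_pos (show 0 < A by linarith) (show 0 < A by linarith)]
  have key : ∀ {a b c d : ℤ}, 2 ≤ |a| → b ≠ 0 → c ≠ 0 → d ≠ 0 → E a b c d →
      ∀ v ∈ ({a, b, c, d} : Multiset ℤ), |v| ≤ 10 * a ^ 4 := by
    intro a b c d ha hb hc hd hab v hv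
    obtain ⟨k1, k2, k3⟩ := bound_all ha hb hc hd hab
    simp only [Multiset.insert_eq_cons, Multiset.mem_cons, Multiset.mem_singleton] at hv
    rcases hv with rfl | rfl | rfl | rfl
    · exact self ha
    · exact k1
    · exact k2
    · exact k3
  intro u hu
  simp only [Multiset.insert_eq_cons, Multiset.mem_cons, Multiset.mem_singleton] at hu
  rcases hu with rfl | rfl | rfl | rfl
  · exact ⟨h1, key h1 hx hy hz hE⟩
  · refine ⟨h2, ?_⟩
    rw [c1]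
    exact key h2 hw hy hz (swap12 hE)
  · refine ⟨h3, ?_⟩
    rw [c2, c1]
    exact key h3 hw hx hz (swap12 (swap23 hE))
  · refine ⟨h4, ?_⟩
    rw [c3, c2, c1]
    exact key h4 hw hx hy (swap12 (swap23 (swap34 hE)))

end Pool.Agent.Results.MP_d45172_nt.Structure
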